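import Pool.Agent.H52.XR2.S2

/-!
# Project XR2, row CSC: continuity of the sections (also with respect to the slope)
-/

set_option autoImplicit false

open MeasureTheory Set Filter Topology Metric
open scoped Real ENNReal

namespace Pool.XR2

open Pool.Agent.H45.XR

namespace Csc

/-- the affine embedding `w ↦ (w + c, h + ⟨g, w + c⟩)`, parameters `(g, h, c)` -/
noncomputable def AF (q : ℂ × ℝ × ℂ) (w : ℂ) : ℂ × ℝ :=
  (w + q.2.2, q.2.1 + (q.1.re * (w + q.2.2).re + q.1.im * (w + q.2.2).im))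

lemma continuous_AF : Continuous fun z : (ℂ × ℝ × ℂ) × ℂ => AF z.1 z.2 := by
  unfold AF; fun_prop

/-- the shear -/
noncomputable def shH (g : ℂ) : (ℂ × ℝ) ≃ₜ (ℂ × ℝ) where
  toFun p := (p.1, p.2 + (g.re * p.1.re + g.im * p.1.im))
  invFun p := (p.1, p.2 - (g.re * p.1.re + g.im * p.1.im))
  left_inv p := by simp
  right_inv p := by simp
  continuous_toFun := by fun_prop
  continuous_invFun := by fun_prop

lemma Sg_eq (g : ℂ) (K : Set (ℂ × ℝ)) : Sg g K = shH g ⁻¹' K := rfl

lemma mem_int_Sg {g : ℂ} {K : Set (ℂ × ℝ)} {z : ℂ} {h : ℝ} :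
    (z, h) ∈ interior (Sg g K) ↔ (z, h + (g.re * z.re + g.im * z.im)) ∈ interior K := by
  rw [Sg_eq, ← (shH g).preimage_interior]; rfl

lemma mem_tr_sec {g : ℂ} {K : Set (ℂ × ℝ)} {w c : ℂ} {h : ℝ} :
    w ∈ tr (sec (Sg g K) h) c ↔ AF (g, h, c) w ∈ K := Iff.rfl

lemma int_sec_iff {K : Set (ℂ × ℝ)} {g z : ℂ} {h : ℝ} (hK : Body3 (Sg g K))
    (hh : h ∈ Hts (Sg g K)) :
    z ∈ interior (sec (Sg g K) h) ↔ (z, h + (g.re * z.re + g.im * z.im)) ∈ interior K := by
  rw [interior_sec hK hh]
  exact mem_int_Sg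

/-- abstract convergence of integrals -/
lemma tendsto_int {E : Type*} [NormedAddCommGroup E] [NormedSpace ℝ E] {S : ℕ → Set ℂ}
    {T : Set ℂ} {R : ℝ} (hT : Convex ℝ T) (hTc : IsCompact T) (hS : ∀ n, IsCompact (S n))
    (hR : ∀ n, S n ⊆ closedBall 0 R) (h1 : ∀ z ∈ interior T, ∀ᶠ n in atTop, z ∈ S n)
    (h2 : ∀ z, z ∉ T → ∀ᶠ n in atTop, z ∉ S n) {f : ℂ → E} (hf : Continuous f) :
    Tendsto (fun n => ∫ z in S n, f z) atTop (𝓝 (∫ z in T, f z)) := by
  have e1 : ∀ n, ∫ z in S n, f z = ∫ z, (S n).indicator f z := fun n =>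
    (integral_indicator (hS n).measurableSet).symm
  have e2 : ∫ z in T, f z = ∫ z, T.indicator f z := (integral_indicator hTc.measurableSet).symm
  simp only [e1]
  rw [e2]
  obtain ⟨B, hB⟩ := (isCompact_closedBall (0 : ℂ) R).exists_bound_of_continuousOn hf.continuousOn
  refine tendsto_integral_of_dominated_convergence
    ((closedBall (0 : ℂ) R).indicator fun _ => B) ?_ ?_ ?_ ?_
  · intro n
    exact (hf.aestronglyMeasurable).indicator (hS n).measurableSet
  · rw [integrable_indicator_iff measurableSet_closedBall]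
    exact integrableOn_const (measure_closedBall_lt_top.ne)
  · intro n
    refine Eventually.of_forall fun z => ?_
    by_cases hz : z ∈ S n
    · rw [indicator_of_mem hz, indicator_of_mem (hR n hz)]
      exact hB z (hR n hz)
    · rw [indicator_of_notMem hz, norm_zero]
      by_cases hz' : z ∈ closedBall (0 : ℂ) R
      · rw [indicator_of_mem hz']
        exact (norm_nonneg _).trans (hB z hz')
      · rw [indicator_of_notMem hz']
  · have h3 : ∀ᵐ z : ℂ, z ∉ frontier T := by
      rw [← measure_eq_zero_iff_ae_notMem]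
      exact hT.addHaar_frontier _
    filter_upwards [h3] with z hz
    by_cases hzT : z ∈ T
    · have h4 : z ∈ interior T := by
        by_contra h5
        apply hz
        rw [hTc.isClosed.frontier_eq]
        exact ⟨hzT, h5⟩
      rw [indicator_of_mem hzT]
      refine tendsto_const_nhds.congr' ?_
      filter_upwards [h1 z h4] with n hn
      rw [indicator_of_mem hn]
    · rw [indicator_of_notMem hzT]
      refine tendsto_const_nhds.congr' ?_
      filter_upwards [h2 z hzT] with n hn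
      rw [indicator_of_notMem hn]

/-- from inclusions to radial functions -/
lemma rad_close {C D : Set ℂ} (hC : Body C) (hD : Body D) {δ R : ℝ} (hδ : 0 < δ)
    (hR : ∀ θ, rad D θ ≤ R) (h1 : ∀ w ∈ D, (((1 + δ)⁻¹ : ℝ) : ℂ) * w ∈ C)
    (h2 : ∀ w ∈ C, (((1 + δ)⁻¹ : ℝ) : ℂ) * w ∈ D) (θ : ℝ) : |rad D θ - rad C θ| ≤ δ * R := by
  have hpos : 0 < (1 + δ)⁻¹ := by positivity
  have a1 : (1 + δ)⁻¹ * rad D θ ≤ rad C θ := by
    have := h1 _ (pt_mem hD θ)
    rw [pt, ← mul_assoc, ← Complex.ofReal_mul] at this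
    exact (mem_iff_le_rad hC θ (mul_nonneg hpos.le (rad_pos hD θ).le)).1 this
  have a2 : (1 + δ)⁻¹ * rad C θ ≤ rad D θ := by
    have := h2 _ (pt_mem hC θ)
    rw [pt, ← mul_assoc, ← Complex.ofReal_mul] at this
    exact (mem_iff_le_rad hD θ (mul_nonneg hpos.le (rad_pos hC θ).le)).1 this
  have hD' := hR θ
  have hDp := rad_pos hD θ
  have hCp := rad_pos hC θ
  have b1 : rad D θ ≤ (1 + δ) * rad C θ := by
    rw [inv_mul_le_iff₀ (by positivity)] at a1
    exact a1
  have b2 : rad C θ ≤ (1 + δ) * rad D θ := by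
    rw [inv_mul_le_iff₀ (by positivity)] at a2
    exact a2
  rw [abs_le]
  constructor
  · nlinarith
  · by_cases hcd : rad C θ ≤ rad D θ
    · nlinarith
    · push Not at hcd
      nlinarith

lemma shrink {C : Set ℂ} (hC : Body C) {δ : ℝ} (hδ : 0 < δ) {w : ℂ} (hw : w ∈ C) :
    (((1 + δ)⁻¹ : ℝ) : ℂ) * w ∈ interior C := by
  have h1 : 0 < 1 - (1 + δ)⁻¹ := by
    rw [sub_pos, inv_lt_one₀ (by positivity)]
    linarith
  have h2 := hC.conv.combo_interior_self_mem_interior hC.zero hw h1
    (show 0 ≤ (1 + δ)⁻¹ by positivity) (by ring)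
  simpa using h2

end Csc

open Csc in
theorem t_csc (hSGB : SGBStmt) : CSCStmt := by
  intro K g g' h h' hK hg hh hh'
  have hS : ∀ g, Body3 (Sg g K) := (hSGB K hK).1
  -- (1)
  have hev : ∀ᶠ n in atTop, h n ∈ Hts (Sg (g n) K) := by
    obtain ⟨z, hz⟩ := hh'
    rw [mem_int_Sg] at hz
    have h1 : Tendsto (fun n => (z, h n + ((g n).re * z.re + (g n).im * z.im))) atTop
        (𝓝 (z, h' + (g'.re * z.re + g'.im * z.im))) := by
      refine tendsto_const_nhds.prodMk_nhds (hh.add ?_)
      exact (((Complex.continuous_re.tendsto _).comp hg).mul_const _).add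
        (((Complex.continuous_im.tendsto _).comp hg).mul_const _)
    filter_upwards [h1.eventually (isOpen_interior.mem_nhds hz)] with n hn
    exact ⟨z, mem_int_Sg.2 hn⟩
  -- bounds
  obtain ⟨R, hR⟩ := hK.cpt.isBounded.subset_closedBall (0 : ℂ × ℝ)
  have hRs : ∀ (g : ℂ) (t : ℝ), sec (Sg g K) t ⊆ closedBall 0 R := by
    intro g t z hz
    have h1 := hR (show (z, t + (g.re * z.re + g.im * z.im)) ∈ K from hz)
    rw [mem_closedBall_zero_iff] at h1 ⊢
    exact (norm_fst_le _).trans h1
  -- (2) centroids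
  have hint : ∀ {E : Type} [NormedAddCommGroup E] [NormedSpace ℝ E] (f : ℂ → E), Continuous f →
      Tendsto (fun n => ∫ z in sec (Sg (g n) K) (h n), f z) atTop
        (𝓝 (∫ z in sec (Sg g' K) h', f z)) := by
    intro E _ _ f hf
    refine tendsto_int (sec_convex (hS g') h') (sec_compact (hS g') h')
      (fun n => sec_compact (hS (g n)) (h n)) (fun n => hRs _ _) ?_ ?_ hf
    · intro z hz
      rw [int_sec_iff (hS g') hh'] at hz
      have h1 : Tendsto (fun n => (z, h n + ((g n).re * z.re + (g n).im * z.im))) atTop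
          (𝓝 (z, h' + (g'.re * z.re + g'.im * z.im))) := by
        refine tendsto_const_nhds.prodMk_nhds (hh.add ?_)
        exact (((Complex.continuous_re.tendsto _).comp hg).mul_const _).add
          (((Complex.continuous_im.tendsto _).comp hg).mul_const _)
      filter_upwards [h1.eventually (isOpen_interior.mem_nhds hz)] with n hn
      have h2 : (z, h n + ((g n).re * z.re + (g n).im * z.im)) ∈ K := interior_subset hn
      exact h2
    · intro z hz
      have h1 : Tendsto (fun n => (z, h n + ((g n).re * z.re + (g n).im * z.im))) atTop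
          (𝓝 (z, h' + (g'.re * z.re + g'.im * z.im))) := by
        refine tendsto_const_nhds.prodMk_nhds (hh.add ?_)
        exact (((Complex.continuous_re.tendsto _).comp hg).mul_const _).add
          (((Complex.continuous_im.tendsto _).comp hg).mul_const _)
      have hz' : (z, h' + (g'.re * z.re + g'.im * z.im)) ∈ Kᶜ := hz
      filter_upwards [h1.eventually (hK.cpt.isClosed.isOpen_compl.mem_nhds hz')] with n hn
      exact hn
  have hvol : Tendsto (fun n => (volume (sec (Sg (g n) K) (h n))).toReal) atTop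
      (𝓝 (volume (sec (Sg g' K) h')).toReal) := by
    have := hint (fun _ : ℂ => (1 : ℝ)) continuous_const
    simpa [Measure.real] using this
  have hne : (interior (sec (Sg g' K) h')).Nonempty := interior_sec_nonempty (hS g') hh'
  have hv0 : (volume (sec (Sg g' K) h')).toReal ≠ 0 := by
    have h1 : 0 < volume (sec (Sg g' K) h') :=
      (isOpen_interior.measure_pos volume hne).trans_le (measure_mono interior_subset)
    have h2 : volume (sec (Sg g' K) h') ≠ ⊤ := (sec_compact (hS g') h').measure_lt_top.ne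
    exact (ENNReal.toReal_pos h1.ne' h2).ne'
  have hcen : Tendsto (fun n => cen (sec (Sg (g n) K) (h n))) atTop
      (𝓝 (cen (sec (Sg g' K) h'))) := by
    unfold cen
    exact (hvol.inv₀ hv0).smul (hint (fun z : ℂ => z) continuous_id)
  refine ⟨hev, ?_, hcen⟩
  -- (3) radial functions
  have hC : Body (Cq (Sg g' K) h') := body_Cq (hS g') hh'
  obtain ⟨R₁, hR₁, hrad⟩ := rad_le hC
  set c' := cen (sec (Sg g' K) h') with hc'
  have hp : Tendsto (fun n => (g n, h n, cen (sec (Sg (g n) K) (h n)))) atTop (𝓝 (g', h', c')) :=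
    hg.prodMk_nhds (hh.prodMk_nhds hcen)
  have hintC : ∀ w, w ∈ interior (Cq (Sg g' K) h') ↔ AF (g', h', c') w ∈ interior K := by
    intro w
    unfold Cq
    rw [interior_tr, mem_tr, int_sec_iff (hS g') hh']
    rfl
  rw [BLim, Metric.tendstoUniformly_iff]
  intro ε hε
  set δ := ε / (2 * R₁) with hδ
  have hδ0 : 0 < δ := by positivity
  -- (A)
  have hA : ∀ᶠ n in atTop, ∀ w ∈ Cq (Sg g' K) h',
      (((1 + δ)⁻¹ : ℝ) : ℂ) * w ∈ Cq (Sg (g n) K) (h n) := by
    have h1 : ∀ᶠ p in 𝓝 (g', h', c'), ∀ w ∈ Cq (Sg g' K) h',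
        AF p ((((1 + δ)⁻¹ : ℝ) : ℂ) * w) ∈ interior K := by
      apply hC.cpt.eventually_forall_of_forall_eventually
      intro w hw
      have hcont : Continuous fun z : (ℂ × ℝ × ℂ) × ℂ =>
          AF z.1 ((((1 + δ)⁻¹ : ℝ) : ℂ) * z.2) := by
        unfold AF; fun_prop
      exact hcont.continuousAt.eventually
        (isOpen_interior.mem_nhds ((hintC _).1 (shrink hC hδ0 hw)))
    filter_upwards [hp.eventually h1] with n hn w hw
    have h2 := interior_subset (hn w hw)
    exact h2
  -- (B)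
  have hB : ∀ᶠ n in atTop, ∀ w ∈ Cq (Sg (g n) K) (h n),
      (((1 + δ)⁻¹ : ℝ) : ℂ) * w ∈ Cq (Sg g' K) h' := by
    set Q : Set ℂ := closedBall 0 (2 * R) ∩
      {w | (((1 + δ)⁻¹ : ℝ) : ℂ) * w ∉ interior (Cq (Sg g' K) h')} with hQ
    have hQc : IsCompact Q := by
      apply (isCompact_closedBall _ _).inter_right
      have hcont : Continuous fun w : ℂ => (((1 + δ)⁻¹ : ℝ) : ℂ) * w := by fun_prop
      exact (isOpen_interior.preimage hcont).isClosed_compl
    have h1 : ∀ᶠ p in 𝓝 (g', h', c'), ∀ w ∈ Q, AF p w ∈ Kᶜ := by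
      apply hQc.eventually_forall_of_forall_eventually
      intro w hw
      have hwK : AF (g', h', c') w ∈ Kᶜ := fun h2 => hw.2 (shrink hC hδ0 h2)
      exact continuous_AF.continuousAt.eventually
        (hK.cpt.isClosed.isOpen_compl.mem_nhds hwK)
    filter_upwards [hp.eventually h1, hev] with n hn hn' w hw
    by_contra hcon
    refine hn w ⟨?_, fun h2 => hcon (interior_subset h2)⟩ hw
    have h3 : w + cen (sec (Sg (g n) K) (h n)) ∈ sec (Sg (g n) K) (h n) := hw
    have h4 : cen (sec (Sg (g n) K) (h n)) ∈ sec (Sg (g n) K) (h n) :=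
      interior_subset (centroid_mem (sec_convex (hS _) _) (sec_compact (hS _) _)
        (interior_sec_nonempty (hS _) hn'))
    have h5 := hRs _ _ h3
    have h6 := hRs _ _ h4
    rw [mem_closedBall_zero_iff] at h5 h6 ⊢
    calc ‖w‖ = ‖(w + cen (sec (Sg (g n) K) (h n))) - cen (sec (Sg (g n) K) (h n))‖ := by
          congr 1; ring
      _ ≤ ‖w + cen (sec (Sg (g n) K) (h n))‖ + ‖cen (sec (Sg (g n) K) (h n))‖ := norm_sub_le _ _
      _ ≤ 2 * R := by linarith
  filter_upwards [hA, hB, hev] with n hn1 hn2 hn3 θ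
  have h1 := rad_close (body_Cq (hS _) hn3) hC hδ0 hrad hn1 hn2 θ
  rw [Real.dist_eq]
  refine h1.trans_lt ?_
  rw [hδ, div_mul_eq_mul_div, div_lt_iff₀ (by positivity)]
  nlinarith

end Pool.XR2
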