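import Pool.Agent.H10.XR2.Tl3

/-!
# Project XR2, row TLB: steep mates have rotation number near `1/2`
-/

set_option autoImplicit false

open MeasureTheory Set Filter Topology Metric
open scoped Real ENNReal

namespace Pool.XR2

open Pool.Agent.H45.XR

namespace Tlb

lemma e_int (φ : ℝ) (n : ℤ) : e (φ + n * (2 * π)) = e φ := by
  unfold e
  rw [Complex.exp_eq_exp_iff_exists_int]
  exact ⟨n, by push_cast; ring⟩

lemma tc_congr {φ φ' : ℝ} (h : e φ = e φ') : tc φ = tc φ' := by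
  have h1 := congrArg Complex.re h
  have h2 := congrArg Complex.im h
  simp only [e_re, e_im] at h1 h2
  funext z
  simp only [tc, h1, h2]

lemma yc_congr {φ φ' : ℝ} (h : e φ = e φ') : yc φ = yc φ' := by
  have h1 := congrArg Complex.re h
  have h2 := congrArg Complex.im h
  simp only [e_re, e_im] at h1 h2
  funext z
  simp only [yc, h1, h2]

lemma noSeg_congr {C : Set ℂ} {φ φ' : ℝ} (h : e φ = e φ') (hS : NoSeg C φ) : NoSeg C φ' := by
  unfold NoSeg at *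
  rw [← tc_congr h]; exact hS

lemma sameX_congr {C C' : Set ℂ} {φ φ' : ℝ} (h : e φ = e φ') (hS : SameX C C' φ) :
    SameX C C' φ' := by
  unfold SameX at *
  rw [← h]; exact hS

lemma TT_shift (hFLX : FLXStmt) (hFLB : FLBStmt) {C : Set ℂ} {φ₀ φ₁ : ℝ} (hC : Body C)
    (h0 : NoSeg C φ₀) (h1 : NoSeg C φ₁) : TT C (φ₀ + π) (φ₁ + π) = TT C φ₀ φ₁ := by
  funext x
  have a0 := (hFLB C φ₀ hC h0).2.2.1
  have a1 := (hFLB C φ₁ hC h1).2.2.1
  have f1 := (hFLX C φ₁ hC h1).1.per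
  unfold TT
  rw [a0, a1, f1]; ring

lemma rot_shift2 (hFLX : FLXStmt) (hFLB : FLBStmt) {C : Set ℂ} {φ₀ φ₁ : ℝ} (hC : Body C)
    (h0 : NoSeg C φ₀) (h1 : NoSeg C φ₁) : rot C (φ₀ + 2 * π) (φ₁ + 2 * π) = rot C φ₀ φ₁ := by
  have e0 : φ₀ + 2 * π = φ₀ + π + π := by ring
  have e1 : φ₁ + 2 * π = φ₁ + π + π := by ring
  unfold rot
  rw [e0, e1, TT_shift hFLX hFLB hC (B3.noSeg_add_pi h0) (B3.noSeg_add_pi h1),
    TT_shift hFLX hFLB hC h0 h1]

lemma rot_nat (hFLX : FLXStmt) (hFLB : FLBStmt) {C : Set ℂ} (hC : Body C) (n : ℕ) :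
    ∀ {φ₀ φ₁ : ℝ}, NoSeg C φ₀ → NoSeg C φ₁ →
      rot C (φ₀ + (n : ℤ) * (2 * π)) (φ₁ + (n : ℤ) * (2 * π)) = rot C φ₀ φ₁ := by
  induction n with
  | zero => intro φ₀ φ₁ _ _; simp
  | succ n ih =>
    intro φ₀ φ₁ h0 h1
    have e0 : φ₀ + ((n + 1 : ℕ) : ℤ) * (2 * π) = φ₀ + (n : ℤ) * (2 * π) + 2 * π := by
      push_cast; ring
    have e1 : φ₁ + ((n + 1 : ℕ) : ℤ) * (2 * π) = φ₁ + (n : ℤ) * (2 * π) + 2 * π := by
      push_cast; ring
    rw [e0, e1, rot_shift2 hFLX hFLB hC (noSeg_congr (e_int φ₀ n).symm h0)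
      (noSeg_congr (e_int φ₁ n).symm h1), ih h0 h1]

lemma rot_int (hFLX : FLXStmt) (hFLB : FLBStmt) {C : Set ℂ} (hC : Body C) (n : ℤ) {φ₀ φ₁ : ℝ}
    (h0 : NoSeg C φ₀) (h1 : NoSeg C φ₁) :
    rot C (φ₀ + n * (2 * π)) (φ₁ + n * (2 * π)) = rot C φ₀ φ₁ := by
  rcases Int.eq_nat_or_neg n with ⟨m, rfl | rfl⟩
  · exact rot_nat hFLX hFLB hC m h0 h1
  · have h2 := rot_nat hFLX hFLB hC m (noSeg_congr (e_int φ₀ (-(m : ℤ))).symm h0)
      (noSeg_congr (e_int φ₁ (-(m : ℤ))).symm h1)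
    rw [← h2]
    congr 1 <;> push_cast <;> ring

lemma Steep.shift {C C' : Set ℂ} {r R A φ θ : ℝ} (h : Steep C C' r R A φ θ) (n : ℤ) :
    Steep C C' r R A (φ + n * (2 * π)) θ := by
  have e0 : e φ = e (φ + n * (2 * π)) := (e_int φ n).symm
  have e1 : φ + n * (2 * π) + θ = φ + θ + n * (2 * π) := by ring
  have e2 : e (φ + θ) = e (φ + n * (2 * π) + θ) := by rw [e1, e_int]
  have hp := h.pm
  refine ⟨h.bd, h.cen, ⟨hp.b, hp.b', by linarith [hp.h01], by linarith [hp.h10],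
    sameX_congr e0 hp.x0, sameX_congr e2 hp.x1, noSeg_congr e0 hp.n0, noSeg_congr e2 hp.n1⟩,
    h.h1, ?_⟩
  rw [← yc_congr e0, ← tc_congr e0]
  exact h.st

/-- the angle of the second direction after scaling -/
noncomputable def wv (θ : ℝ) : ℂ := ⟨Real.cos θ, Real.sin θ / θ⟩

lemma wv_eq (θ : ℝ) : wv θ = (Real.cos θ : ℂ) + (Real.sin θ / θ : ℝ) * Complex.I :=
  Complex.mk_eq_add_mul_I _ _

lemma Dg_e (φ θ : ℝ) : Dg φ 1 (1 / θ) (e (φ + θ)) = (‖wv θ‖ : ℂ) * e (φ + (wv θ).arg) := by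
  have h1 : (‖wv θ‖ : ℂ) * e ((wv θ).arg) = wv θ := Complex.norm_mul_exp_arg_mul_I (wv θ)
  rw [e_add φ (wv θ).arg, mul_comm (e φ) (e (wv θ).arg), ← mul_assoc, h1, wv_eq, Dg, yc_e, tc_e,
    add_sub_cancel_left]
  push_cast
  ring

lemma wv_bounds {θ : ℝ} (h0 : 0 < θ) (h1 : θ < 1) : Real.cos θ ≤ Real.sin θ / θ ∧
    Real.sin θ / θ ≤ 1 ∧ 0 < Real.cos θ := by
  have hc : 0 < Real.cos θ := Real.cos_pos_of_mem_Ioo ⟨by linarith [Real.pi_gt_three],
    by linarith [Real.pi_gt_three]⟩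
  refine ⟨?_, ?_, hc⟩
  · rw [le_div_iff₀ h0]
    have h2 := Real.lt_tan h0 (by linarith [Real.pi_gt_three])
    rw [Real.tan_eq_sin_div_cos, lt_div_iff₀ hc] at h2
    linarith
  · rw [div_le_one h0]; exact (Real.sin_lt h0).le

lemma arg_wv {θ : ℝ} (h0 : 0 < θ) (h1 : θ < 1) : 0 < (wv θ).arg ∧ (wv θ).arg < π := by
  obtain ⟨a, b, c⟩ := wv_bounds h0 h1
  have him : 0 < (wv θ).im := c.trans_le a
  have hre : 0 < (wv θ).re := c
  constructor
  · have h2 : 0 ≤ (wv θ).arg := Complex.arg_nonneg_iff.2 him.le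
    rcases eq_or_lt_of_le h2 with h3 | h3
    · exact absurd ((Complex.arg_eq_zero_iff.1 h3.symm).2) him.ne'
    · exact h3
  · have := (Complex.abs_arg_lt_pi_div_two_iff.2 (Or.inl hre))
    have h3 := (abs_lt.1 this).2
    linarith [Real.pi_pos]

lemma norm_wv {θ : ℝ} (h0 : 0 < θ) (h1 : θ < 1) : 0 < ‖wv θ‖ := by
  obtain ⟨a, b, c⟩ := wv_bounds h0 h1
  rw [norm_pos_iff]
  intro h
  have := congrArg Complex.re h
  simp only [wv, Complex.zero_re] at this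
  linarith

lemma arg_one_I : (1 + Complex.I).arg = π / 4 := by
  have h1 : (1 + Complex.I) = (Real.sqrt 2 : ℂ) *
      (Complex.cos ((π / 4 : ℝ) : ℂ) + Complex.sin ((π / 4 : ℝ) : ℂ) * Complex.I) := by
    have h2 : Real.sqrt 2 * (Real.sqrt 2 / 2) = 1 := by
      have := Real.mul_self_sqrt (show (0 : ℝ) ≤ 2 by norm_num)
      linarith
    rw [← Complex.ofReal_cos, ← Complex.ofReal_sin, Real.cos_pi_div_four, Real.sin_pi_div_four]
    apply Complex.ext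
    · simp; linarith
    · simp; linarith
  rw [h1]
  apply Complex.arg_mul_cos_add_sin_mul_I (by positivity)
  constructor <;> linarith [Real.pi_pos]

lemma tendsto_arg {θ : ℕ → ℝ} (h0 : ∀ n, 0 < θ n) (h1 : ∀ n, θ n < 1)
    (h : Tendsto θ atTop (𝓝 0)) : Tendsto (fun n => (wv (θ n)).arg) atTop (𝓝 (π / 4)) := by
  rw [← arg_one_I]
  have hc : Tendsto (fun n => Real.cos (θ n)) atTop (𝓝 1) := by
    have := (Real.continuous_cos.tendsto 0).comp h
    simpa [Function.comp_def] using this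
  have hs : Tendsto (fun n => Real.sin (θ n) / θ n) atTop (𝓝 1) :=
    tendsto_of_tendsto_of_tendsto_of_le_of_le hc tendsto_const_nhds
      (fun n => (wv_bounds (h0 n) (h1 n)).1) (fun n => (wv_bounds (h0 n) (h1 n)).2.1)
  have hw : Tendsto (fun n => wv (θ n)) atTop (𝓝 (1 + Complex.I)) := by
    simp only [wv_eq]
    have h3 := ((Complex.continuous_ofReal.tendsto 1).comp hc).add
      (((Complex.continuous_ofReal.tendsto 1).comp hs).mul_const Complex.I)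
    simpa using h3
  exact (Complex.continuousAt_arg (by simp [Complex.slitPlane])).tendsto.comp hw

lemma tendsto_k {θ : ℕ → ℝ} (h0 : ∀ n, 0 < θ n) (h1 : ∀ n, θ n < 1)
    (h : Tendsto θ atTop (𝓝 0)) :
    Tendsto (fun n => θ n * (2 * (Real.cos (θ n) / Real.sin (θ n)))) atTop (𝓝 2) := by
  have hc : Tendsto (fun n => 2 * Real.cos (θ n)) atTop (𝓝 2) := by
    have := ((Real.continuous_cos.tendsto 0).comp h).const_mul 2
    simpa using this
  exact tendsto_of_tendsto_of_tendsto_of_le_of_le hc tendsto_const_nhds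
      (fun n => (cot_bounds (h0 n) (h1 n)).1) (fun n => (cot_bounds (h0 n) (h1 n)).2.1)

/-- the scaled intersections are uniformly bounded bodies -/
lemma scaled_bd (hINB : INBStmt) {r R A : ℝ} (hr : 0 < r) : ∃ ρ > 0, ∀ (C C' : Set ℂ) (φ θ : ℝ),
    Steep C C' r R A φ θ → Body (Dg φ 1 (1 / θ) '' (C ∩ C')) →
    Bd ρ (2 * R + A) (Dg φ 1 (1 / θ) '' (C ∩ C')) := by
  obtain ⟨ρ, hρ, H⟩ := ball_sh hINB (R := R) (A := A) hr
  refine ⟨min (r / 2) (ρ / 4), by positivity, fun C C' φ θ h hb => ⟨hb, ?_, ?_⟩⟩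
  · intro z hz
    rw [mem_ball_zero_iff] at hz
    have hz1 : ‖z‖ < r / 2 := hz.trans_le (min_le_left _ _)
    have hz2 : ‖z‖ < ρ / 4 := hz.trans_le (min_le_right _ _)
    have hθ := h.pos
    have hθ1 := h.h1
    have ht := abs_tc_le φ z
    have hy := abs_yc_le φ z
    have ht' : |θ * tc φ z| ≤ ‖z‖ := by
      rw [abs_mul, abs_of_pos hθ]
      nlinarith [abs_nonneg (tc φ z)]
    rw [mem_scaled hθ]
    constructor
    · apply h.bd.inn
      rw [mem_ball_zero_iff]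
      refine (norm_le_add φ _).trans_lt ?_
      rw [tc_P, yc_P]
      linarith
    · apply H C' φ (2 * (Real.cos θ / Real.sin θ)) h.pm.b'
      · rw [← sameX_volume h.pm.b.cpt h.pm.b'.cpt h.pm.x0]
        exact measure_mono h.bd.inn
      · rw [← sameX_integral h.pm.b.cpt h.pm.b'.cpt h.pm.h01 h.pm.h10 h.pm.x0 h.pm.x1]
        exact h.cen
      · intro w hw
        exact level_mate h.bd.out h.pm.b' h.pm.x0 hw
      · exact h.st
      · refine (norm_le_add φ _).trans_lt ?_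
        rw [tc_sh, yc_sh, tc_P, yc_P]
        obtain ⟨k1, k2, k3⟩ := cot_bounds hθ hθ1
        set k := θ * (2 * (Real.cos θ / Real.sin θ)) with hk
        have e1 : yc φ z + -(2 * (Real.cos θ / Real.sin θ)) * (θ * tc φ z) =
            yc φ z - k * tc φ z := by rw [hk]; ring
        rw [e1]
        have h3 : |k * tc φ z| ≤ 2 * ‖z‖ := by
          rw [abs_mul, abs_of_nonneg (show 0 ≤ k by linarith)]
          exact mul_le_mul k2 ht (abs_nonneg _) (by norm_num)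
        have h4 := abs_sub (yc φ z) (k * tc φ z)
        linarith
  · intro z hz
    obtain ⟨h1, h2, -⟩ := h.outer hr hz
    rw [mem_closedBall_zero_iff]
    exact (norm_le_add φ z).trans (by linarith)

end Tlb

open Tlb in
theorem t_tlb (hFLX : FLXStmt) (hFLB : FLBStmt) (hPRL : PRLStmt) (hLNA : LNAStmt)
    (hCPT : CPTStmt) (hRCN : RCNStmt) (hINB : INBStmt) (hWFL : WFLStmt) : TLBStmt := by
  intro r R A ε hr hε
  by_contra hcon
  push Not at hcon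
  have hex : ∀ n : ℕ, ∃ (C C' : Set ℂ) (φ θ : ℝ), Steep C C' r R A φ θ ∧ θ < 1 / ((n : ℝ) + 1) ∧
      φ ∈ Icc 0 (2 * π) ∧ ε < |rot (C ∩ C') φ (φ + θ) - 1 / 2| := by
    intro n
    obtain ⟨C, C', φ, θ, h1, h2, h3, h4, h5, h6⟩ := hcon (1 / ((n : ℝ) + 1)) (by positivity)
    have hn1 : 1 / ((n : ℝ) + 1) ≤ 1 := by
      rw [div_le_one (by positivity)]
      have : (0 : ℝ) ≤ n := Nat.cast_nonneg n
      linarith
    have hS : Steep C C' r R A φ θ := ⟨h1, h2, h3, h4.trans_le hn1, h5⟩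
    obtain ⟨w1, w2, -⟩ := hWFL C C' φ h3.b h3.b' h3.x0 h3.n0
    obtain ⟨-, w3, -⟩ := hWFL C C' (φ + θ) h3.b h3.b' h3.x1 h3.n1
    refine ⟨C, C', φ + (-⌊φ / (2 * π)⌋ : ℤ) * (2 * π), θ, hS.shift _, h4, ?_, ?_⟩
    · have hpi : 0 < 2 * π := Real.two_pi_pos
      have e1 : φ + (-⌊φ / (2 * π)⌋ : ℤ) * (2 * π) = Int.fract (φ / (2 * π)) * (2 * π) := by
        rw [Int.fract]
        push_cast
        field_simp
        ring
      rw [e1]
      have f0 := Int.fract_nonneg (φ / (2 * π))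
      have f1 := (Int.fract_lt_one (φ / (2 * π))).le
      constructor
      · positivity
      · nlinarith
    · have e1 : φ + (-⌊φ / (2 * π)⌋ : ℤ) * (2 * π) + θ =
          φ + θ + (-⌊φ / (2 * π)⌋ : ℤ) * (2 * π) := by ring
      rw [e1, rot_int hFLX hFLB w1 _ w2 w3]
      exact h6
  choose C C' φ θ hS hθ hφ hrot using hex
  have hθ0 : ∀ n, 0 < θ n := fun n => (hS n).pos
  have hθ1 : ∀ n, θ n < 1 := fun n => (hS n).h1
  have hθlim : Tendsto θ atTop (𝓝 0) :=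
    squeeze_zero (fun n => (hθ0 n).le) (fun n => (hθ n).le) tendsto_one_div_add_atTop_nhds_zero_nat
  -- the scaled bodies
  set W : ℕ → Set ℂ := fun n => Dg (φ n) 1 (1 / θ n) '' (C n ∩ C' n) with hWdef
  have hWn : ∀ n, Body (W n) ∧ NoSeg (W n) (φ n) ∧ NoSeg (W n) (φ n + (wv (θ n)).arg) ∧
      rot (W n) (φ n) (φ n + (wv (θ n)).arg) = rot (C n ∩ C' n) (φ n) (φ n + θ n) := by
    intro n
    have h3 := (hS n).pm
    obtain ⟨w1, w2, -⟩ := hWFL (C n) (C' n) (φ n) h3.b h3.b' h3.x0 h3.n0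
    obtain ⟨-, w3, -⟩ := hWFL (C n) (C' n) (φ n + θ n) h3.b h3.b' h3.x1 h3.n1
    obtain ⟨a1, a2⟩ := arg_wv (hθ0 n) (hθ1 n)
    refine hLNA (C n ∩ C' n) (φ n) (φ n + θ n) (φ n) (φ n + (wv (θ n)).arg) (φ n) 1 (1 / θ n) 1
      ‖wv (θ n)‖ w1 w2 w3 h3.h01 h3.h10 (by linarith) (by linarith) one_pos
      (one_div_pos.2 (hθ0 n)) one_pos (norm_wv (hθ0 n) (hθ1 n)) ?_ (Dg_e (φ n) (θ n))
    apply ext_tc (φ := φ n)
    · rw [tc_Dg, tc_mul, tc_e_self]; ring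
    · rw [yc_Dg, yc_mul]
  obtain ⟨ρ, hρ, hbd⟩ := scaled_bd hINB (R := R) (A := A) hr
  have hWbd : ∀ n, Bd ρ (2 * R + A) (W n) := fun n => hbd _ _ _ _ (hS n) (hWn n).1
  -- compactness
  have hcpt : IsCompact (Icc (0 : ℝ) (2 * π) ×ˢ Icc (0 : ℝ) R ×ˢ Icc (0 : ℝ) R ×ˢ
      Icc (0 : ℝ) A ×ˢ Icc (0 : ℝ) A) :=
    isCompact_Icc.prod (isCompact_Icc.prod (isCompact_Icc.prod (isCompact_Icc.prod
      isCompact_Icc)))
  obtain ⟨x, hx, σ, hσ, hlim⟩ := hcpt.tendsto_subseq (x := fun n =>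
    (φ n, rad (C n) (φ n), rad (C n) (φ n + π), rad (C' n) (φ n), rad (C' n) (φ n + π))) (by
      intro n
      obtain ⟨-, n1, n2, n3, n4⟩ := (hS n).nums
      have h3 := (hS n).pm
      exact ⟨hφ n, ⟨(rad_pos h3.b _).le, n1⟩, ⟨(rad_pos h3.b _).le, n2⟩,
        ⟨(rad_pos h3.b' _).le, n3⟩, ⟨(rad_pos h3.b' _).le, n4⟩⟩)
  obtain ⟨D, τ, hτ, hDbd, hDlim⟩ := hCPT ρ (2 * R + A) (fun n => W (σ n)) hρ
    (fun n => hWbd (σ n))
  have hlim' := hlim.comp hτ.tendsto_atTop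
  set ν : ℕ → ℕ := fun n => σ (τ n) with hν
  have hνt : Tendsto ν atTop atTop := hσ.tendsto_atTop.comp hτ.tendsto_atTop
  have hφ' : Tendsto (fun n => φ (ν n)) atTop (𝓝 x.1) := hlim'.fst_nhds
  have hu : Tendsto (fun n => rad (C (ν n)) (φ (ν n))) atTop (𝓝 x.2.1) := hlim'.snd_nhds.fst_nhds
  have hv : Tendsto (fun n => rad (C (ν n)) (φ (ν n) + π)) atTop (𝓝 x.2.2.1) :=
    hlim'.snd_nhds.snd_nhds.fst_nhds
  have hu' : Tendsto (fun n => rad (C' (ν n)) (φ (ν n))) atTop (𝓝 x.2.2.2.1) :=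
    hlim'.snd_nhds.snd_nhds.snd_nhds.fst_nhds
  have hv' : Tendsto (fun n => rad (C' (ν n)) (φ (ν n) + π)) atTop (𝓝 x.2.2.2.2) :=
    hlim'.snd_nhds.snd_nhds.snd_nhds.snd_nhds
  have hθν : Tendsto (fun n => θ (ν n)) atTop (𝓝 0) := hθlim.comp hνt
  have hR0 : 0 < R := (rad_pos (hS 0).pm.b _).trans_le (hS 0).nums.2.1
  have hA0 : 0 < A := (rad_pos (hS 0).pm.b' _).trans_le (hS 0).nums.2.2.2.1
  have hpara : Para D x.1 x.2.1 x.2.2.1 x.2.2.2.1 x.2.2.2.2 := by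
    refine para_of_lim (W := fun n => W (ν n)) (η := fun n => 4 * (R + A) ^ 2 / r * θ (ν n))
      (fun n => (hWn _).1) hDbd.body hDlim hφ' hu hv hu' hv'
      (tendsto_k (fun n => hθ0 (ν n)) (fun n => hθ1 (ν n)) hθν) ?_ ?_ ?_ ?_
    · simpa using hθν.const_mul (4 * (R + A) ^ 2 / r)
    · intro n
      exact (hS (ν n)).nums.1
    · intro n z hz
      obtain ⟨-, -, o1, o2, o3, o4⟩ := (hS (ν n)).outer hr hz
      exact ⟨o2, o1, o4, o3⟩
    · intro z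
      refine ⟨‖z‖ / (R + A), ?_⟩
      have hev : ∀ᶠ n in atTop, ‖z‖ * θ (ν n) < r / 2 := by
        have := hθν.const_mul ‖z‖
        rw [mul_zero] at this
        exact this.eventually (gt_mem_nhds (by positivity))
      filter_upwards [hev] with n hn d1 d2 d3 d4
      have e1 : ‖z‖ / (R + A) * (4 * (R + A) ^ 2 / r * θ (ν n)) =
          4 * (R + A) * ‖z‖ / r * θ (ν n) := by
        have : R + A ≠ 0 := by positivity
        field_simp
      rw [e1] at d1 d2 d3 d4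
      exact (hS (ν n)).inner hr (abs_tc_le _ z) hn.le d2 d1 d4 d3
  have hfin := hRCN (fun n => W (ν n)) D (fun n => φ (ν n))
    (fun n => φ (ν n) + (wv (θ (ν n))).arg) x.1 (x.1 + π / 4) (fun n => (hWn _).1)
    (fun n => (hWn _).2.1) (fun n => (hWn _).2.2.1) hDbd.body hpara.ns0 hpara.ns1 hDlim hφ'
    (hφ'.add (tendsto_arg (fun n => hθ0 (ν n)) (fun n => hθ1 (ν n)) hθν))
  rw [hpara.rot hPRL] at hfin
  have hfin2 : Tendsto (fun n => |rot (W (ν n)) (φ (ν n)) (φ (ν n) + (wv (θ (ν n))).arg) - 1 / 2|)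
      atTop (𝓝 0) := by
    have := (hfin.sub_const (1 / 2)).abs
    simpa using this
  obtain ⟨n, hn⟩ := (hfin2.eventually (gt_mem_nhds hε)).exists
  rw [(hWn (ν n)).2.2.2] at hn
  exact lt_asymm hn (hrot (ν n))

end Pool.XR2
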