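import Pool.Agent.H52.XR2.S2

/-!
# Project XR2, row TLB, part 1: coordinates and chords
-/

set_option autoImplicit false

open MeasureTheory Set Filter Topology Metric
open scoped Real ENNReal

namespace Pool.XR2

open Pool.Agent.H45.XR

namespace Tlb

/-- the point with coordinates `tc φ = t`, `yc φ = y` -/
noncomputable def P (φ t y : ℝ) : ℂ := (y : ℂ) * e φ + (t : ℂ) * (Complex.I * e φ)

lemma tc_Ie (φ : ℝ) : tc φ (Complex.I * e φ) = 1 := by
  simp only [tc, Complex.mul_im, Complex.mul_re, Complex.I_re, Complex.I_im, e_re, e_im]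
  have := Real.sin_sq_add_cos_sq φ
  linear_combination this

lemma yc_Ie (φ : ℝ) : yc φ (Complex.I * e φ) = 0 := by
  simp only [yc, Complex.mul_im, Complex.mul_re, Complex.I_re, Complex.I_im, e_re, e_im]
  ring

@[simp] lemma tc_P (φ t y : ℝ) : tc φ (P φ t y) = t := by
  rw [P, tc_add, tc_mul, tc_mul, tc_e_self, tc_Ie]; ring

@[simp] lemma yc_P (φ t y : ℝ) : yc φ (P φ t y) = y := by
  rw [P, yc_add, yc_mul, yc_mul, yc_e_self, yc_Ie]; ring

lemma P_tc_yc (φ : ℝ) (z : ℂ) : P φ (tc φ z) (yc φ z) = z := (decomp φ z).symm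

lemma ext_tc {φ : ℝ} {z w : ℂ} (h1 : tc φ z = tc φ w) (h2 : yc φ z = yc φ w) : z = w := by
  rw [← P_tc_yc φ z, ← P_tc_yc φ w, h1, h2]

lemma norm_sq_tc (φ : ℝ) (z : ℂ) : ‖z‖ ^ 2 = tc φ z ^ 2 + yc φ z ^ 2 := by
  rw [← Complex.normSq_eq_norm_sq, Complex.normSq_apply, tc, yc]
  have h := Real.sin_sq_add_cos_sq φ
  linear_combination (-(z.re ^ 2 + z.im ^ 2)) * h

lemma abs_tc_le (φ : ℝ) (z : ℂ) : |tc φ z| ≤ ‖z‖ := by
  apply abs_le_of_sq_le_sq _ (norm_nonneg z)
  rw [norm_sq_tc φ z]; nlinarith [sq_nonneg (yc φ z)]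

lemma abs_yc_le (φ : ℝ) (z : ℂ) : |yc φ z| ≤ ‖z‖ := by
  apply abs_le_of_sq_le_sq _ (norm_nonneg z)
  rw [norm_sq_tc φ z]; nlinarith [sq_nonneg (tc φ z)]

lemma norm_le_add (φ : ℝ) (z : ℂ) : ‖z‖ ≤ |tc φ z| + |yc φ z| := by
  apply le_of_sq_le_sq _ (by positivity)
  rw [norm_sq_tc φ z, ← sq_abs (tc φ z), ← sq_abs (yc φ z)]
  nlinarith [abs_nonneg (tc φ z), abs_nonneg (yc φ z)]

lemma tc_comb (φ a b : ℝ) (z w : ℂ) : tc φ (a • z + b • w) = a * tc φ z + b * tc φ w := by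
  rw [tc_add, tc_smul, tc_smul]

lemma yc_comb (φ a b : ℝ) (z w : ℂ) : yc φ (a • z + b • w) = a * yc φ z + b * yc φ w := by
  rw [yc_add, yc_smul, yc_smul]

/-- the chord at level `0` -/
lemma mem_level0 {C : Set ℂ} (hC : Body C) (φ y : ℝ) :
    (y : ℂ) * e φ ∈ C ↔ -rad C (φ + π) ≤ y ∧ y ≤ rad C φ := by
  rcases le_total 0 y with h | h
  · rw [mem_iff_le_rad hC φ h]
    have := rad_pos hC (φ + π)
    exact ⟨fun h1 => ⟨by linarith, h1⟩, fun h1 => h1.2⟩
  · have h1 : (y : ℂ) * e φ = ((-y : ℝ) : ℂ) * e (φ + π) := by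
      rw [e_add_pi]; push_cast; ring
    rw [h1, mem_iff_le_rad hC (φ + π) (by linarith)]
    have := rad_pos hC φ
    exact ⟨fun h1 => ⟨by linarith, by linarith⟩, fun h1 => by linarith [h1.1]⟩

lemma mem_of_level0 {C : Set ℂ} (hC : Body C) {φ : ℝ} {z : ℂ} (hz : z ∈ C) (h : tc φ z = 0) :
    -rad C (φ + π) ≤ yc φ z ∧ yc φ z ≤ rad C φ := by
  rw [← mem_level0 hC]
  have := P_tc_yc φ z
  rw [h, P] at this
  simp only [Complex.ofReal_zero, zero_mul, add_zero] at this
  rw [this]; exact hz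

lemma rad_sum {C C' : Set ℂ} (hC : Body C) (hC' : Body C') {φ : ℝ} (h : SameX C C' φ) :
    rad C φ + rad C (φ + π) = rad C' φ + rad C' (φ + π) := by
  have key : ∀ {D : Set ℂ}, Body D → volume {s : ℝ | (0 : ℂ) + s * e φ ∈ D} =
      ENNReal.ofReal (rad D φ + rad D (φ + π)) := by
    intro D hD
    have : {s : ℝ | (0 : ℂ) + s * e φ ∈ D} = Icc (-rad D (φ + π)) (rad D φ) := by
      ext s
      simp only [zero_add, mem_ofPred_eq, mem_Icc]
      exact mem_level0 hD φ s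
    rw [this, Real.volume_Icc]; congr 1; ring
  have h1 := h 0
  rw [key hC, key hC'] at h1
  have p1 := rad_pos hC φ
  have p2 := rad_pos hC (φ + π)
  have p3 := rad_pos hC' φ
  have p4 := rad_pos hC' (φ + π)
  exact (ENNReal.ofReal_eq_ofReal_iff (by linarith) (by linarith)).1 h1

/-- upper estimate near level `0` -/
lemma upper {C : Set ℂ} (hC : Body C) {φ c A r : ℝ} (hr : 0 < r)
    (hA : ∀ z ∈ C, |yc φ z - c * tc φ z| ≤ A) (h1 : ∃ z ∈ C, tc φ z = r)
    (h2 : ∃ z ∈ C, tc φ z = -r) {z : ℂ} (hz : z ∈ C) :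
    yc φ z - c * tc φ z ≤ rad C φ + 2 * A * |tc φ z| / r ∧
    -rad C (φ + π) - 2 * A * |tc φ z| / r ≤ yc φ z - c * tc φ z := by
  have ha : rad C φ ≤ A := by
    have := hA _ (pt_mem hC φ)
    rw [tc_pt, yc_pt] at this
    simp at this
    exact (le_abs_self _).trans this
  have ha' : rad C (φ + π) ≤ A := by
    have := hA _ (pt_mem hC (φ + π))
    rw [tc_pt, yc_pt] at this
    simp at this
    exact (le_abs_self _).trans this
  obtain ⟨w, hw, hwt, hwA⟩ : ∃ w ∈ C, tc φ w * |tc φ z| = - r * tc φ z ∧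
      |yc φ w - c * tc φ w| ≤ A := by
    rcases le_total 0 (tc φ z) with h | h
    · obtain ⟨w, hw, hw'⟩ := h2
      exact ⟨w, hw, by rw [abs_of_nonneg h, hw'], hA w hw⟩
    · obtain ⟨w, hw, hw'⟩ := h1
      exact ⟨w, hw, by rw [abs_of_nonpos h, hw']; ring, hA w hw⟩
  set T := |tc φ z| with hT
  have hT0 : 0 ≤ T := abs_nonneg _
  have hs : 0 < r + T := by positivity
  set v : ℂ := (r / (r + T)) • z + (T / (r + T)) • w with hv
  have hvC : v ∈ C := hC.conv hz hw (by positivity) (by positivity) (by field_simp)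
  have hv0 : tc φ v = 0 := by
    rw [hv, tc_comb]
    have : r / (r + T) * tc φ z + T / (r + T) * tc φ w =
        (r * tc φ z + tc φ w * T) / (r + T) := by ring
    rw [this, hwt]; ring
  obtain ⟨h3, h4⟩ := mem_of_level0 hC hvC hv0
  have hy : yc φ v * (r + T) = r * yc φ z + T * yc φ w := by
    rw [hv, yc_comb]; field_simp
  have hA1 := abs_le.1 hwA
  have h5 : r * yc φ z + T * yc φ w ≤ rad C φ * (r + T) := by
    rw [← hy]; exact mul_le_mul_of_nonneg_right h4 hs.le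
  have h6 : -rad C (φ + π) * (r + T) ≤ r * yc φ z + T * yc φ w := by
    rw [← hy]; exact mul_le_mul_of_nonneg_right h3 hs.le
  have h7 : T * (c * tc φ w) = - r * c * tc φ z := by linear_combination c * hwt
  have h8 : T * -A ≤ T * (yc φ w - c * tc φ w) := mul_le_mul_of_nonneg_left hA1.1 hT0
  have h9 : T * (yc φ w - c * tc φ w) ≤ T * A := mul_le_mul_of_nonneg_left hA1.2 hT0
  have h10 : rad C φ * T ≤ A * T := mul_le_mul_of_nonneg_right ha hT0
  have h11 : rad C (φ + π) * T ≤ A * T := mul_le_mul_of_nonneg_right ha' hT0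
  constructor
  · rw [← sub_le_iff_le_add', le_div_iff₀ hr]
    nlinarith
  · rw [sub_le_iff_le_add, ← sub_le_iff_le_add', le_div_iff₀ hr]
    nlinarith

/-- inner estimate near level `0` -/
lemma inner' {C : Set ℂ} (hC : Body C) {φ c A r : ℝ} (hr : 0 < r)
    (hA : ∀ z ∈ C, |yc φ z - c * tc φ z| ≤ A) (h1 : ∃ z ∈ C, tc φ z = r)
    (h2 : ∃ z ∈ C, tc φ z = -r) {z : ℂ} (hzr : |tc φ z| ≤ r)
    (hu : yc φ z - c * tc φ z ≤ rad C φ - 2 * A * |tc φ z| / r)
    (hl : -rad C (φ + π) + 2 * A * |tc φ z| / r ≤ yc φ z - c * tc φ z) : z ∈ C := by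
  have ha : rad C φ ≤ A := by
    have := hA _ (pt_mem hC φ)
    rw [tc_pt, yc_pt] at this
    simp at this
    exact (le_abs_self _).trans this
  have ha' : rad C (φ + π) ≤ A := by
    have := hA _ (pt_mem hC (φ + π))
    rw [tc_pt, yc_pt] at this
    simp at this
    exact (le_abs_self _).trans this
  obtain ⟨w, hw, hwt, hwA⟩ : ∃ w ∈ C, tc φ w * |tc φ z| = r * tc φ z ∧
      |yc φ w - c * tc φ w| ≤ A := by
    rcases le_total 0 (tc φ z) with h | h
    · obtain ⟨w, hw, hw'⟩ := h1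
      exact ⟨w, hw, by rw [abs_of_nonneg h, hw'], hA w hw⟩
    · obtain ⟨w, hw, hw'⟩ := h2
      exact ⟨w, hw, by rw [abs_of_nonpos h, hw']; ring, hA w hw⟩
  set T := |tc φ z| with hT
  have hT0 : 0 ≤ T := abs_nonneg _
  have hm0 : 0 ≤ T / r := by positivity
  have hm1 : T / r ≤ 1 := by rw [div_le_one hr]; exact hzr
  have htl : T / r * tc φ w = tc φ z := by
    have : T / r * tc φ w = (tc φ w * T) / r := by ring
    rw [this, hwt]; field_simp
  set p : ℂ := (1 - T / r) • pt C φ + (T / r) • w with hp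
  set q : ℂ := (1 - T / r) • pt C (φ + π) + (T / r) • w with hq
  have hpC : p ∈ C := hC.conv (pt_mem hC φ) hw (by linarith) hm0 (by ring)
  have hqC : q ∈ C := hC.conv (pt_mem hC (φ + π)) hw (by linarith) hm0 (by ring)
  have e1 : tc φ (pt C φ) = 0 := by rw [tc_pt]; simp
  have e2 : tc φ (pt C (φ + π)) = 0 := by rw [tc_pt]; simp
  have e3 : yc φ (pt C φ) = rad C φ := by rw [yc_pt]; simp
  have e4 : yc φ (pt C (φ + π)) = -rad C (φ + π) := by rw [yc_pt]; simp
  have htp : tc φ p = tc φ z := by rw [hp, tc_comb, e1, htl]; ring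
  have htq : tc φ q = tc φ z := by rw [hq, tc_comb, e2, htl]; ring
  have hyp : yc φ p = (1 - T / r) * rad C φ + T / r * yc φ w := by rw [hp, yc_comb, e3]
  have hyq : yc φ q = -(1 - T / r) * rad C (φ + π) + T / r * yc φ w := by
    rw [hq, yc_comb, e4]; ring
  have hA1 := abs_le.1 hwA
  have h8 : T / r * -A ≤ T / r * (yc φ w - c * tc φ w) := mul_le_mul_of_nonneg_left hA1.1 hm0
  have h9 : T / r * (yc φ w - c * tc φ w) ≤ T / r * A := mul_le_mul_of_nonneg_left hA1.2 hm0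
  have h10 : T / r * rad C φ ≤ T / r * A := mul_le_mul_of_nonneg_left ha hm0
  have h11 : T / r * rad C (φ + π) ≤ T / r * A := mul_le_mul_of_nonneg_left ha' hm0
  have h12 : T / r * (c * tc φ w) = c * tc φ z := by rw [← htl]; ring
  have h13 : 2 * A * T / r = 2 * (T / r * A) := by ring
  rw [h13] at hu hl
  have h14 : yc φ z ≤ yc φ p := by rw [hyp]; nlinarith
  have h15 : yc φ q ≤ yc φ z := by rw [hyq]; nlinarith
  have hz : z = P φ (tc φ z) (yc φ z) := (P_tc_yc φ z).symm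
  rcases eq_or_lt_of_le (h15.trans h14) with h16 | h16
  · have : z = p := ext_tc htp.symm (by linarith)
    rw [this]; exact hpC
  · have h17 : 0 < yc φ p - yc φ q := by linarith
    have : z = ((yc φ z - yc φ q) / (yc φ p - yc φ q)) • p +
        ((yc φ p - yc φ z) / (yc φ p - yc φ q)) • q := by
      apply ext_tc (φ := φ)
      · rw [tc_comb, htp, htq]; field_simp; ring
      · rw [yc_comb]; field_simp; ring
    rw [this]
    exact hC.conv hpC hqC (div_nonneg (by linarith) h17.le) (div_nonneg (by linarith) h17.le)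
      (by field_simp; ring)

end Tlb

end Pool.XR2
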