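import Pool.Agent.H10.XR2.Tl1

/-!
# Project XR2, row TLB, part 2: shears, the inner ball, the scaled intersection
-/

set_option autoImplicit false

open MeasureTheory Set Filter Topology Metric
open scoped Real ENNReal

namespace Pool.XR2

open Pool.Agent.H45.XR

namespace Tlb

/-- the shear `(t, y) ↦ (t, y + c t)` -/
noncomputable def sh (φ c : ℝ) (z : ℂ) : ℂ := z + ((c * tc φ z : ℝ) : ℂ) * e φ

@[simp] lemma tc_sh (φ c : ℝ) (z : ℂ) : tc φ (sh φ c z) = tc φ z := by
  rw [sh, tc_add, tc_mul, tc_e_self]; ring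

@[simp] lemma yc_sh (φ c : ℝ) (z : ℂ) : yc φ (sh φ c z) = yc φ z + c * tc φ z := by
  rw [sh, yc_add, yc_mul, yc_e_self]; ring

lemma sh_sh (φ c : ℝ) (z : ℂ) : sh φ (-c) (sh φ c z) = z := by
  apply ext_tc (φ := φ)
  · simp
  · simp

lemma continuous_sh (φ c : ℝ) : Continuous (sh φ c) := by
  unfold sh
  have := continuous_tc φ
  fun_prop

/-- the shear as a homeomorphism -/
noncomputable def shH (φ c : ℝ) : ℂ ≃ₜ ℂ where
  toFun := sh φ c
  invFun := sh φ (-c)
  left_inv := sh_sh φ c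
  right_inv z := by have := sh_sh φ (-c) z; rwa [neg_neg] at this
  continuous_toFun := continuous_sh φ c
  continuous_invFun := continuous_sh φ (-c)

/-- the shear as a linear map -/
noncomputable def shL (φ c : ℝ) : ℂ →L[ℝ] ℂ :=
  LinearMap.toContinuousLinearMap
    { toFun := sh φ c
      map_add' := fun z w => by
        apply ext_tc (φ := φ)
        · simp [tc_add]
        · simp [tc_add, yc_add]; ring
      map_smul' := fun a z => by
        show sh φ c (a • z) = a • sh φ c z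
        apply ext_tc (φ := φ)
        · rw [tc_sh, tc_smul, tc_smul, tc_sh]
        · rw [yc_sh, tc_smul, yc_smul, yc_smul, yc_sh]; ring }

@[simp] lemma shL_apply (φ c : ℝ) (z : ℂ) : shL φ c z = sh φ c z := rfl

lemma sh_mp (φ c : ℝ) : MeasurePreserving (sh φ c) (volume : Measure ℂ) volume := by
  have hsk : MeasurePreserving (fun q : ℝ × ℝ => (q.1, q.2 + c * q.1)) (volume : Measure (ℝ × ℝ))
      volume := by
    rw [Measure.volume_eq_prod]
    refine MeasurePreserving.skew_product (g := fun a b => b + c * a)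
      (MeasurePreserving.id volume) (by fun_prop) ?_
    refine Eventually.of_forall fun a => ?_
    exact (measurePreserving_add_right (volume : Measure ℝ) (c * a)).map_eq
  have hcomm : ∀ q, sh φ c (fr φ q) = fr φ (q.1, q.2 + c * q.1) := by
    intro q
    apply ext_tc (φ := φ)
    · simp [tc_fr]
    · rw [yc_sh, tc_fr]
      simp only [fr, yc_add, yc_mul, yc_e_self, yc_Ie]
      ring
  refine ⟨(continuous_sh φ c).measurable, ?_⟩
  ext S hS
  have hm := (continuous_sh φ c).measurable hS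
  rw [Measure.map_apply (continuous_sh φ c).measurable hS, ← (fr_mp φ).measure_preimage
    hm.nullMeasurableSet, ← (fr_mp φ).measure_preimage hS.nullMeasurableSet,
    ← hsk.measure_preimage ((fr_mp φ).measurable hS).nullMeasurableSet]
  congr 1
  ext q
  simp only [mem_preimage, hcomm]

/-- uniform inner ball of the sheared mate -/
lemma ball_sh (hINB : INBStmt) {r R A : ℝ} (hr : 0 < r) :
    ∃ ρ > 0, ∀ (C : Set ℂ) (φ c : ℝ), Body C → volume (ball (0 : ℂ) r) ≤ volume C →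
      ∫ z in C, z = 0 → (∀ z ∈ C, |tc φ z| ≤ R) → (∀ z ∈ C, |yc φ z - c * tc φ z| ≤ A) →
      ∀ z, ‖sh φ (-c) z‖ < ρ → z ∈ C := by
  have hvol : volume (ball (0 : ℂ) r) ≠ ⊤ := measure_ball_lt_top.ne
  have hvol0 : 0 < volume (ball (0 : ℂ) r) := measure_ball_pos _ _ hr
  obtain ⟨ρ, hρ, H⟩ := hINB (R + A) (volume (ball (0 : ℂ) r)).toReal
    (ENNReal.toReal_pos hvol0.ne' hvol)
  refine ⟨ρ, hρ, fun C φ c hC hv hint hR hA z hz => ?_⟩
  set C'' : Set ℂ := sh φ c ⁻¹' C with hC''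
  have hcpt : IsCompact C'' := (shH φ c).isCompact_preimage.2 hC.cpt
  have h1 : Bd ρ (R + A) C'' := by
    apply H
    · exact hC.conv.linear_preimage (shL φ c).toLinearMap
    · exact hcpt
    · intro w hw
      rw [mem_closedBall_zero_iff]
      refine (norm_le_add φ w).trans ?_
      have h2 := hR _ hw
      have h3 := hA _ hw
      rw [tc_sh] at h2
      rw [tc_sh, yc_sh, add_sub_cancel_right] at h3
      linarith
    · rw [ENNReal.ofReal_toReal hvol, hC'', (sh_mp φ c).measure_preimage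
        hC.cpt.measurableSet.nullMeasurableSet]
      exact hv
    · have h2 : ∫ w in C'', sh φ c w = ∫ w in C, w :=
        (sh_mp φ c).setIntegral_preimage_emb (shH φ c).measurableEmbedding (fun w => w) C
      have h3 : ∫ w in C'', shL φ c w = shL φ c (∫ w in C'', w) :=
        (shL φ c).integral_comp_comm (continuous_id.continuousOn.integrableOn_compact hcpt)
      simp only [shL_apply] at h3
      rw [h2, hint] at h3
      have h4 := congrArg (sh φ (-c)) h3
      rw [sh_sh] at h4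
      rw [← h4, sh]
      simp
  have h5 : sh φ (-c) z ∈ C'' := h1.inn (mem_ball_zero_iff.2 hz)
  have h6 : sh φ c (sh φ (-c) z) = z := by have := sh_sh φ (-c) z; rwa [neg_neg] at this
  rw [hC'', mem_preimage, h6] at h5
  exact h5

/-- levels of mates -/
lemma level_mate {C C' : Set ℂ} {φ R : ℝ} (hC : C ⊆ closedBall 0 R) (hC' : Body C')
    (h : SameX C C' φ) {z : ℂ} (hz : z ∈ C') : |tc φ z| ≤ R := by
  have h1 : ∀ w ∈ interior C', |tc φ w| ≤ R := by
    intro w hw
    have h2 := B3.xray_pos (φ := φ) hw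
    rw [← h w] at h2
    obtain ⟨s, hs⟩ := nonempty_of_measure_ne_zero h2.ne'
    have h3 := hC hs
    rw [mem_closedBall_zero_iff] at h3
    have h4 := (abs_tc_le φ _).trans h3
    rwa [tc_add, tc_mul, tc_e_self, mul_zero, add_zero] at h4
  have h2 : z ∈ closure (interior C') := by
    rw [hC'.conv.closure_interior_eq_closure_of_nonempty_interior ⟨0, hC'.zero⟩]
    exact subset_closure hz
  have h3 : IsClosed {w : ℂ | |tc φ w| ≤ R} :=
    isClosed_le ((continuous_tc φ).abs) continuous_const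
  exact closure_minimal h1 h3 h2

lemma level_exists {C C' : Set ℂ} {φ r t : ℝ} (hC : ball 0 r ⊆ C)
    (h : SameX C C' φ) (ht : |t| < r) : ∃ z ∈ C', tc φ z = t := by
  have h1 : P φ t 0 ∈ interior C := by
    apply interior_mono hC
    rw [isOpen_ball.interior_eq, mem_ball_zero_iff]
    refine (norm_le_add φ _).trans_lt ?_
    simpa using ht
  have h2 := B3.xray_pos (φ := φ) h1
  rw [h (P φ t 0)] at h2
  obtain ⟨s, hs⟩ := nonempty_of_measure_ne_zero h2.ne'
  exact ⟨_, hs, by rw [tc_add, tc_mul, tc_e_self, tc_P]; ring⟩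

lemma tc_Dg (ψ a b : ℝ) (z : ℂ) : tc ψ (Dg ψ a b z) = b * tc ψ z := by
  rw [Dg, tc_add, tc_mul, tc_mul, tc_e_self, tc_Ie]; ring

lemma yc_Dg (ψ a b : ℝ) (z : ℂ) : yc ψ (Dg ψ a b z) = a * yc ψ z := by
  rw [Dg, yc_add, yc_mul, yc_mul, yc_e_self, yc_Ie]; ring

lemma mem_scaled {W : Set ℂ} {φ θ : ℝ} (hθ : 0 < θ) {z : ℂ} :
    z ∈ Dg φ 1 (1 / θ) '' W ↔ P φ (θ * tc φ z) (yc φ z) ∈ W := by
  constructor
  · rintro ⟨w, hw, rfl⟩
    have : P φ (θ * tc φ (Dg φ 1 (1 / θ) w)) (yc φ (Dg φ 1 (1 / θ) w)) = w := by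
      apply ext_tc (φ := φ)
      · rw [tc_P, tc_Dg]; field_simp
      · rw [yc_P, yc_Dg]; ring
    rw [this]; exact hw
  · intro h
    refine ⟨_, h, ?_⟩
    apply ext_tc (φ := φ)
    · rw [tc_Dg, tc_P]; field_simp
    · rw [yc_Dg, yc_P]; ring

lemma cot_bounds {θ : ℝ} (h0 : 0 < θ) (h1 : θ < 1) :
    2 * Real.cos θ ≤ θ * (2 * (Real.cos θ / Real.sin θ)) ∧
    θ * (2 * (Real.cos θ / Real.sin θ)) ≤ 2 ∧ 1 ≤ 2 * Real.cos θ := by
  have hs : 0 < Real.sin θ := Real.sin_pos_of_pos_of_lt_pi h0 (by linarith [Real.pi_gt_three])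
  have hs' : Real.sin θ ≤ θ := (Real.sin_lt h0).le
  have hc : 1 / 2 ≤ Real.cos θ := by
    have := Real.one_sub_sq_div_two_le_cos (x := θ)
    nlinarith
  have ht : θ * Real.cos θ ≤ Real.sin θ := by
    have h2 := Real.lt_tan h0 (by linarith [Real.pi_gt_three])
    rw [Real.tan_eq_sin_div_cos, lt_div_iff₀ (by linarith)] at h2
    exact h2.le
  have e1 : θ * (2 * (Real.cos θ / Real.sin θ)) = 2 * (θ * Real.cos θ / Real.sin θ) := by ring
  refine ⟨?_, ?_, by linarith⟩
  · rw [e1]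
    have : Real.cos θ ≤ θ * Real.cos θ / Real.sin θ := by
      rw [le_div_iff₀ hs]
      nlinarith
    linarith
  · rw [e1]
    have : θ * Real.cos θ / Real.sin θ ≤ 1 := by
      rw [div_le_one hs]; exact ht
    linarith

/-- the data of a steep pair -/
structure Steep (C C' : Set ℂ) (r R A φ θ : ℝ) : Prop where
  bd : Bd r R C
  cen : ∫ z in C, z = 0
  pm : PM C C' φ (φ + θ)
  h1 : θ < 1
  st : ∀ z ∈ C', |yc φ z - 2 * (Real.cos θ / Real.sin θ) * tc φ z| ≤ A

lemma Steep.pos {C C' : Set ℂ} {r R A φ θ : ℝ} (h : Steep C C' r R A φ θ) : 0 < θ := by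
  have := h.pm.h01; linarith

/-- the four numbers -/
lemma Steep.nums {C C' : Set ℂ} {r R A φ θ : ℝ} (h : Steep C C' r R A φ θ) :
    rad C φ + rad C (φ + π) = rad C' φ + rad C' (φ + π) ∧ rad C φ ≤ R ∧ rad C (φ + π) ≤ R ∧
    rad C' φ ≤ A ∧ rad C' (φ + π) ≤ A := by
  refine ⟨rad_sum h.pm.b h.pm.b' h.pm.x0, ?_, ?_, ?_, ?_⟩
  · have := h.bd.out (pt_mem h.pm.b φ)
    rw [mem_closedBall_zero_iff, pt, norm_mul, norm_e, mul_one, Complex.norm_real,
      Real.norm_eq_abs] at this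
    exact (le_abs_self _).trans this
  · have := h.bd.out (pt_mem h.pm.b (φ + π))
    rw [mem_closedBall_zero_iff, pt, norm_mul, norm_e, mul_one, Complex.norm_real,
      Real.norm_eq_abs] at this
    exact (le_abs_self _).trans this
  · have := h.st _ (pt_mem h.pm.b' φ)
    rw [tc_pt, yc_pt] at this
    simp at this
    exact (le_abs_self _).trans this
  · have := h.st _ (pt_mem h.pm.b' (φ + π))
    rw [tc_pt, yc_pt] at this
    simp at this
    exact (le_abs_self _).trans this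

lemma Steep.outer {C C' : Set ℂ} {r R A φ θ : ℝ} (hr : 0 < r) (h : Steep C C' r R A φ θ) {z : ℂ}
    (hz : z ∈ Dg φ 1 (1 / θ) '' (C ∩ C')) :
    |tc φ z| ≤ R + A ∧ |yc φ z| ≤ R ∧
    yc φ z ≤ rad C φ + 4 * (R + A) ^ 2 / r * θ ∧
    -rad C (φ + π) - 4 * (R + A) ^ 2 / r * θ ≤ yc φ z ∧
    yc φ z - θ * (2 * (Real.cos θ / Real.sin θ)) * tc φ z ≤
      rad C' φ + 4 * (R + A) ^ 2 / r * θ ∧
    -rad C' (φ + π) - 4 * (R + A) ^ 2 / r * θ ≤
      yc φ z - θ * (2 * (Real.cos θ / Real.sin θ)) * tc φ z := by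
  have hθ := h.pos
  obtain ⟨k1, k2, k3⟩ := cot_bounds hθ h.h1
  rw [mem_scaled hθ] at hz
  obtain ⟨hz1, hz2⟩ := hz
  have hy : |yc φ z| ≤ R := by
    have h2 := h.bd.out hz1
    rw [mem_closedBall_zero_iff] at h2
    have h3 := (abs_yc_le φ _).trans h2
    rwa [yc_P] at h3
  have hA := h.st _ hz2
  rw [yc_P, tc_P] at hA
  set k := θ * (2 * (Real.cos θ / Real.sin θ)) with hk
  have hkt : 2 * (Real.cos θ / Real.sin θ) * (θ * tc φ z) = k * tc φ z := by rw [hk]; ring
  rw [hkt] at hA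
  have ht : |tc φ z| ≤ R + A := by
    have h2 : |k * tc φ z| ≤ R + A := by
      have : k * tc φ z = yc φ z - (yc φ z - k * tc φ z) := by ring
      rw [this]
      exact (abs_sub _ _).trans (by linarith)
    rw [abs_mul] at h2
    have h3 : 1 ≤ |k| := by
      rw [abs_of_nonneg (by linarith)]; linarith
    nlinarith [abs_nonneg (tc φ z)]
  have hR0 : 0 ≤ R := (abs_nonneg _).trans hy
  have hA0 : 0 ≤ A := (abs_nonneg _).trans hA
  have hlev : |θ * tc φ z| ≤ (R + A) * θ := by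
    rw [abs_mul, abs_of_pos hθ, mul_comm]
    exact mul_le_mul_of_nonneg_right ht hθ.le
  have hexC : ∀ t : ℝ, |t| < r → ∃ z ∈ C, tc φ z = t := fun t ht =>
    level_exists h.bd.inn (fun p => rfl) ht
  have hexC' : ∀ t : ℝ, |t| < r → ∃ z ∈ C', tc φ z = t := fun t ht =>
    level_exists h.bd.inn h.pm.x0 ht
  have hr2 : |r / 2| < r := by rw [abs_of_pos (by linarith)]; linarith
  have hr2' : |-(r / 2)| < r := by rw [abs_neg]; exact hr2
  have hyC : ∀ z ∈ C, |yc φ z - 0 * tc φ z| ≤ R := by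
    intro z hz
    have h2 := h.bd.out hz
    rw [mem_closedBall_zero_iff] at h2
    simpa using (abs_yc_le φ _).trans h2
  have u1 := upper h.pm.b (half_pos hr) hyC (hexC _ hr2) (hexC _ hr2') hz1
  have u2 := upper h.pm.b' (half_pos hr) h.st (hexC' _ hr2) (hexC' _ hr2') hz2
  rw [yc_P, tc_P] at u1 u2
  rw [hkt] at u2
  have hb1 : 2 * R * |θ * tc φ z| / (r / 2) ≤ 4 * (R + A) ^ 2 / r * θ := by
    have : 2 * R * |θ * tc φ z| / (r / 2) = 4 * (R * |θ * tc φ z|) / r := by field_simp; ring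
    rw [this, div_mul_eq_mul_div]
    apply div_le_div_of_nonneg_right _ hr.le
    have h2 : R * |θ * tc φ z| ≤ (R + A) * ((R + A) * θ) := by
      apply mul_le_mul (by linarith) hlev (abs_nonneg _) (by linarith)
    nlinarith
  have hb2 : 2 * A * |θ * tc φ z| / (r / 2) ≤ 4 * (R + A) ^ 2 / r * θ := by
    have : 2 * A * |θ * tc φ z| / (r / 2) = 4 * (A * |θ * tc φ z|) / r := by field_simp; ring
    rw [this, div_mul_eq_mul_div]
    apply div_le_div_of_nonneg_right _ hr.le
    have h2 : A * |θ * tc φ z| ≤ (R + A) * ((R + A) * θ) := by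
      apply mul_le_mul (by linarith) hlev (abs_nonneg _) (by linarith)
    nlinarith
  refine ⟨ht, hy, by linarith [u1.1], by linarith [u1.2], by linarith [u2.1], by linarith [u2.2]⟩

lemma Steep.inner {C C' : Set ℂ} {r R A φ θ N : ℝ} (hr : 0 < r) (h : Steep C C' r R A φ θ) {z : ℂ}
    (hN : |tc φ z| ≤ N) (hNθ : N * θ ≤ r / 2)
    (h1 : yc φ z ≤ rad C φ - 4 * (R + A) * N / r * θ)
    (h2 : -rad C (φ + π) + 4 * (R + A) * N / r * θ ≤ yc φ z)
    (h3 : yc φ z - θ * (2 * (Real.cos θ / Real.sin θ)) * tc φ z ≤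
      rad C' φ - 4 * (R + A) * N / r * θ)
    (h4 : -rad C' (φ + π) + 4 * (R + A) * N / r * θ ≤
      yc φ z - θ * (2 * (Real.cos θ / Real.sin θ)) * tc φ z) :
    z ∈ Dg φ 1 (1 / θ) '' (C ∩ C') := by
  have hθ := h.pos
  rw [mem_scaled hθ]
  obtain ⟨-, n1, n2, n3, n4⟩ := h.nums
  have hR0 : 0 ≤ R := (rad_pos h.pm.b φ).le.trans n1
  have hA0 : 0 ≤ A := (rad_pos h.pm.b' φ).le.trans n3
  have hN0 : 0 ≤ N := (abs_nonneg _).trans hN
  set k := θ * (2 * (Real.cos θ / Real.sin θ)) with hk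
  have hkt : 2 * (Real.cos θ / Real.sin θ) * (θ * tc φ z) = k * tc φ z := by rw [hk]; ring
  have hlev : |θ * tc φ z| ≤ N * θ := by
    rw [abs_mul, abs_of_pos hθ, mul_comm]
    exact mul_le_mul_of_nonneg_right hN hθ.le
  have hexC : ∀ t : ℝ, |t| < r → ∃ z ∈ C, tc φ z = t := fun t ht =>
    level_exists h.bd.inn (fun p => rfl) ht
  have hexC' : ∀ t : ℝ, |t| < r → ∃ z ∈ C', tc φ z = t := fun t ht =>
    level_exists h.bd.inn h.pm.x0 ht
  have hr2 : |r / 2| < r := by rw [abs_of_pos (by linarith)]; linarith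
  have hr2' : |-(r / 2)| < r := by rw [abs_neg]; exact hr2
  have hyC : ∀ z ∈ C, |yc φ z - 0 * tc φ z| ≤ R := by
    intro z hz
    have h2 := h.bd.out hz
    rw [mem_closedBall_zero_iff] at h2
    simpa using (abs_yc_le φ _).trans h2
  have hb1 : 2 * R * |θ * tc φ z| / (r / 2) ≤ 4 * (R + A) * N / r * θ := by
    have : 2 * R * |θ * tc φ z| / (r / 2) = 4 * (R * |θ * tc φ z|) / r := by field_simp; ring
    rw [this, div_mul_eq_mul_div]
    apply div_le_div_of_nonneg_right _ hr.le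
    have h2 : R * |θ * tc φ z| ≤ (R + A) * (N * θ) := by
      apply mul_le_mul (by linarith) hlev (abs_nonneg _) (by linarith)
    nlinarith
  have hb2 : 2 * A * |θ * tc φ z| / (r / 2) ≤ 4 * (R + A) * N / r * θ := by
    have : 2 * A * |θ * tc φ z| / (r / 2) = 4 * (A * |θ * tc φ z|) / r := by field_simp; ring
    rw [this, div_mul_eq_mul_div]
    apply div_le_div_of_nonneg_right _ hr.le
    have h2 : A * |θ * tc φ z| ≤ (R + A) * (N * θ) := by
      apply mul_le_mul (by linarith) hlev (abs_nonneg _) (by linarith)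
    nlinarith
  constructor
  · apply inner' h.pm.b (half_pos hr) hyC (hexC _ hr2) (hexC _ hr2')
    · rw [tc_P]; linarith
    · rw [yc_P, tc_P]; linarith
    · rw [yc_P, tc_P]; linarith
  · apply inner' h.pm.b' (half_pos hr) h.st (hexC' _ hr2) (hexC' _ hr2')
    · rw [tc_P]; linarith
    · rw [yc_P, tc_P, hkt]; linarith
    · rw [yc_P, tc_P, hkt]; linarith

end Tlb

end Pool.XR2
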