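import Pool.Agent.H10.XR2.Tl2

/-!
# Project XR2, row TLB, part 3: the limit parallelogram
-/

set_option autoImplicit false

open MeasureTheory Set Filter Topology Metric
open scoped Real ENNReal

namespace Pool.XR2

open Pool.Agent.H45.XR

namespace Tlb

lemma norm_arg (z : ℂ) : z = (‖z‖ : ℂ) * e (Complex.arg z) :=
  (Complex.norm_mul_exp_arg_mul_I z).symm

lemma mem_lim {W : ℕ → Set ℂ} {D : Set ℂ} (hW : ∀ n, Body (W n)) (hD : Body D) (h : BLim W D)
    {z : ℂ} (hz : ∀ᶠ n in atTop, z ∈ W n) : z ∈ D := by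
  rw [norm_arg z, mem_iff_le_rad hD _ (norm_nonneg z)]
  refine ge_of_tendsto (h.tendsto_at (Complex.arg z)) ?_
  filter_upwards [hz] with n hn
  rw [← mem_iff_le_rad (hW n) _ (norm_nonneg z), ← norm_arg z]
  exact hn

lemma ev_mem {W : ℕ → Set ℂ} {D : Set ℂ} (hW : ∀ n, Body (W n)) (hD : Body D) (h : BLim W D)
    {z : ℂ} (hz : z ∈ D) {μ : ℝ} (h0 : 0 ≤ μ) (h1 : μ < 1) :
    ∀ᶠ n in atTop, (μ : ℂ) * z ∈ W n := by
  have h2 : ‖z‖ ≤ rad D (Complex.arg z) := by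
    rw [← mem_iff_le_rad hD _ (norm_nonneg z), ← norm_arg z]; exact hz
  have h3 : μ * ‖z‖ < rad D (Complex.arg z) := by
    have := rad_pos hD (Complex.arg z)
    rcases eq_or_lt_of_le (norm_nonneg z) with h4 | h4
    · rw [← h4, mul_zero]; exact this
    · nlinarith
  filter_upwards [(h.tendsto_at (Complex.arg z)).eventually (lt_mem_nhds h3)] with n hn
  have h5 : (μ : ℂ) * z = ((μ * ‖z‖ : ℝ) : ℂ) * e (Complex.arg z) := by
    conv_lhs => rw [norm_arg z]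
    push_cast; ring
  rw [h5, mem_iff_le_rad (hW n) _ (mul_nonneg h0 (norm_nonneg z))]
  exact hn.le

/-- the parallelogram -/
structure Para (D : Set ℂ) (φ u v u' v' : ℝ) : Prop where
  b : Body D
  up : 0 < u
  vp : 0 < v
  up' : 0 < u'
  vp' : 0 < v'
  eq : u + v = u' + v'
  out : ∀ z ∈ D, -v ≤ yc φ z ∧ yc φ z ≤ u ∧ -v' ≤ yc φ z - 2 * tc φ z ∧
    yc φ z - 2 * tc φ z ≤ u'
  inn : ∀ z, -v < yc φ z → yc φ z < u → -v' < yc φ z - 2 * tc φ z →
    yc φ z - 2 * tc φ z < u' → z ∈ D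

lemma Para.int {D : Set ℂ} {φ u v u' v' : ℝ} (h : Para D φ u v u' v') {z : ℂ}
    (h1 : -v < yc φ z) (h2 : yc φ z < u) (h3 : -v' < yc φ z - 2 * tc φ z)
    (h4 : yc φ z - 2 * tc φ z < u') : z ∈ interior D := by
  have hy := continuous_yc φ
  have ht := continuous_tc φ
  have hc : Continuous fun z => yc φ z - 2 * tc φ z := hy.sub (continuous_const.mul ht)
  have ho : IsOpen {z : ℂ | -v < yc φ z ∧ yc φ z < u ∧ -v' < yc φ z - 2 * tc φ z ∧
      yc φ z - 2 * tc φ z < u'} := by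
    refine (isOpen_lt continuous_const hy).inter ((isOpen_lt hy continuous_const).inter
      ((isOpen_lt continuous_const hc).inter (isOpen_lt hc continuous_const)))
  exact interior_maximal (fun z hz => h.inn z hz.1 hz.2.1 hz.2.2.1 hz.2.2.2) ho
    ⟨h1, h2, h3, h4⟩

lemma Para.mid {D : Set ℂ} {φ u v u' v' : ℝ} (h : Para D φ u v u' v') {p q : ℂ} (hp : p ∈ D)
    (hq : q ∈ D) (h1 : yc φ p ≠ yc φ q)
    (h2 : yc φ p - 2 * tc φ p ≠ yc φ q - 2 * tc φ q) :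
    (1 / 2 : ℝ) • p + (1 / 2 : ℝ) • q ∈ interior D := by
  obtain ⟨a1, a2, a3, a4⟩ := h.out p hp
  obtain ⟨b1, b2, b3, b4⟩ := h.out q hq
  have c1 : yc φ ((1 / 2 : ℝ) • p + (1 / 2 : ℝ) • q) = (yc φ p + yc φ q) / 2 := by
    rw [yc_comb]; ring
  have c2 : tc φ ((1 / 2 : ℝ) • p + (1 / 2 : ℝ) • q) = (tc φ p + tc φ q) / 2 := by
    rw [tc_comb]; ring
  apply h.int
  · rw [c1]; rcases lt_or_gt_of_ne h1 with h3 | h3 <;> linarith
  · rw [c1]; rcases lt_or_gt_of_ne h1 with h3 | h3 <;> linarith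
  · rw [c1, c2]; rcases lt_or_gt_of_ne h2 with h3 | h3 <;> linarith
  · rw [c1, c2]; rcases lt_or_gt_of_ne h2 with h3 | h3 <;> linarith

lemma Para.ns0 {D : Set ℂ} {φ u v u' v' : ℝ} (h : Para D φ u v u' v') : NoSeg D φ := by
  intro p hp q hq hpq ht
  have h1 : yc φ p ≠ yc φ q := fun h2 => hpq (ext_tc ht h2)
  refine ⟨_, h.mid hp hq h1 (by rw [ht]; intro h2; exact h1 (by linarith)), ?_⟩
  rw [tc_comb, ht]; ring

lemma tc_quarter (φ : ℝ) (z : ℂ) :
    tc (φ + π / 4) z = Real.sqrt 2 / 2 * (tc φ z - yc φ z) := by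
  have : tc (φ + π / 4) z = Real.cos (π / 4) * tc φ z - Real.sin (π / 4) * yc φ z := by
    simp only [tc, yc, Real.cos_add, Real.sin_add]
    ring
  rw [this, Real.cos_pi_div_four, Real.sin_pi_div_four]; ring

lemma Para.ns1 {D : Set ℂ} {φ u v u' v' : ℝ} (h : Para D φ u v u' v') :
    NoSeg D (φ + π / 4) := by
  intro p hp q hq hpq ht
  rw [tc_quarter, tc_quarter] at ht
  have hs : 0 < Real.sqrt 2 / 2 := by positivity
  have h0 : tc φ p - yc φ p = tc φ q - yc φ q := mul_left_cancel₀ hs.ne' ht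
  have h1 : yc φ p ≠ yc φ q := fun h2 => hpq (ext_tc (by linarith) h2)
  refine ⟨_, h.mid hp hq h1 (by intro h2; exact h1 (by linarith)), ?_⟩
  rw [tc_quarter, tc_quarter, tc_comb, yc_comb]
  linear_combination (- Real.sqrt 2 / 4) * h0

lemma Para.closed {D : Set ℂ} {φ u v u' v' : ℝ} (h : Para D φ u v u' v') {z : ℂ}
    (h1 : -v ≤ yc φ z) (h2 : yc φ z ≤ u) (h3 : -v' ≤ yc φ z - 2 * tc φ z)
    (h4 : yc φ z - 2 * tc φ z ≤ u') : z ∈ D := by
  have hlim : Tendsto (fun s : ℝ => (s : ℂ) * z) (𝓝[<] 1) (𝓝 z) := by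
    have hc : Continuous fun s : ℝ => (s : ℂ) * z := by fun_prop
    have := (hc.tendsto 1).mono_left (nhdsWithin_le_nhds (s := Iio (1 : ℝ)))
    simpa using this
  refine h.b.cpt.isClosed.mem_of_tendsto hlim ?_
  have hev : ∀ᶠ s : ℝ in 𝓝[<] 1, 0 < s ∧ s < 1 :=
    Ioo_mem_nhdsLT (by norm_num : (0 : ℝ) < 1)
  filter_upwards [hev] with s hs
  have := h.up
  have := h.vp
  have := h.up'
  have := h.vp'
  apply h.inn <;> rw [yc_mul] <;> try rw [tc_mul]
  all_goals nlinarith [hs.1, hs.2]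

lemma Para.rot (hPRL : PRLStmt) {D : Set ℂ} {φ u v u' v' : ℝ} (h : Para D φ u v u' v') :
    rot D φ (φ + π / 4) = 1 / 2 := by
  have hpi := Real.pi_pos
  have hp := h.up
  have hp1 := h.vp
  have hp2 := h.up'
  have hp3 := h.vp'
  refine hPRL D φ (φ + π / 4) (P φ ((-v - u') / 2) (-v)) (P φ ((u + v') / 2) u) h.b h.ns0 h.ns1
    (by linarith) (by linarith) ?_ ?_ ?_ ?_
  · apply h.closed <;> simp only [tc_P, yc_P] <;> linarith
  · apply h.closed <;> simp only [tc_P, yc_P] <;> linarith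
  · intro z hz
    obtain ⟨a1, a2, a3, a4⟩ := h.out z hz
    rw [tc_P, tc_P]
    constructor <;> linarith
  · rw [tc_quarter, tc_quarter, tc_P, tc_P, yc_P, yc_P]
    have := h.eq
    have e1 : (-v - u') / 2 - -v = (u + v') / 2 - u := by linarith
    rw [e1]

/-- the limit is a parallelogram -/
lemma para_of_lim {W : ℕ → Set ℂ} {D : Set ℂ} (hW : ∀ n, Body (W n)) (hD : Body D)
    (h : BLim W D) {φ u v u' v' k η : ℕ → ℝ} {φ₀ u₀ v₀ u₀' v₀' : ℝ} (hφ : Tendsto φ atTop (𝓝 φ₀))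
    (hu : Tendsto u atTop (𝓝 u₀)) (hv : Tendsto v atTop (𝓝 v₀)) (hu' : Tendsto u' atTop (𝓝 u₀'))
    (hv' : Tendsto v' atTop (𝓝 v₀')) (hk : Tendsto k atTop (𝓝 2)) (hη : Tendsto η atTop (𝓝 0))
    (heq : ∀ n, u n + v n = u' n + v' n)
    (hout : ∀ n, ∀ z ∈ W n, -v n - η n ≤ yc (φ n) z ∧ yc (φ n) z ≤ u n + η n ∧
      -v' n - η n ≤ yc (φ n) z - k n * tc (φ n) z ∧
      yc (φ n) z - k n * tc (φ n) z ≤ u' n + η n)
    (hinn : ∀ z, ∃ B : ℝ, ∀ᶠ n in atTop, -v n + B * η n ≤ yc (φ n) z →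
      yc (φ n) z ≤ u n - B * η n → -v' n + B * η n ≤ yc (φ n) z - k n * tc (φ n) z →
      yc (φ n) z - k n * tc (φ n) z ≤ u' n - B * η n → z ∈ W n) :
    Para D φ₀ u₀ v₀ u₀' v₀' := by
  have hyc : ∀ z : ℂ, Tendsto (fun n => yc (φ n) z) atTop (𝓝 (yc φ₀ z)) := by
    intro z
    have hc : Continuous fun x : ℝ => yc x z := by unfold yc; fun_prop
    exact (hc.tendsto φ₀).comp hφ
  have htc : ∀ z : ℂ, Tendsto (fun n => tc (φ n) z) atTop (𝓝 (tc φ₀ z)) := by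
    intro z
    have hc : Continuous fun x : ℝ => tc x z := by unfold tc; fun_prop
    exact (hc.tendsto φ₀).comp hφ
  have hout' : ∀ z ∈ D, -v₀ ≤ yc φ₀ z ∧ yc φ₀ z ≤ u₀ ∧ -v₀' ≤ yc φ₀ z - 2 * tc φ₀ z ∧
      yc φ₀ z - 2 * tc φ₀ z ≤ u₀' := by
    intro z hz
    have key : ∀ μ : ℝ, 0 ≤ μ → μ < 1 → -v₀ ≤ yc φ₀ ((μ : ℂ) * z) ∧
        yc φ₀ ((μ : ℂ) * z) ≤ u₀ ∧
        -v₀' ≤ yc φ₀ ((μ : ℂ) * z) - 2 * tc φ₀ ((μ : ℂ) * z) ∧
        yc φ₀ ((μ : ℂ) * z) - 2 * tc φ₀ ((μ : ℂ) * z) ≤ u₀' := by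
      intro μ h0 h1
      have hev := ev_mem hW hD h hz h0 h1
      have hy := hyc ((μ : ℂ) * z)
      have hyt := hy.sub (hk.mul (htc ((μ : ℂ) * z)))
      have b1 := le_of_tendsto_of_tendsto (hv.neg.sub hη) hy
        (hev.mono fun n hn => (hout n _ hn).1)
      have b2 := le_of_tendsto_of_tendsto hy (hu.add hη)
        (hev.mono fun n hn => (hout n _ hn).2.1)
      have b3 := le_of_tendsto_of_tendsto (hv'.neg.sub hη) hyt
        (hev.mono fun n hn => (hout n _ hn).2.2.1)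
      have b4 := le_of_tendsto_of_tendsto hyt (hu'.add hη)
        (hev.mono fun n hn => (hout n _ hn).2.2.2)
      exact ⟨by linarith, by linarith, by linarith, by linarith⟩
    have hlim : Tendsto (fun s : ℝ => (s : ℂ) * z) (𝓝[<] 1) (𝓝 z) := by
      have hc : Continuous fun s : ℝ => (s : ℂ) * z := by fun_prop
      have := (hc.tendsto 1).mono_left (nhdsWithin_le_nhds (s := Iio (1 : ℝ)))
      simpa using this
    have hy := continuous_yc φ₀
    have ht := continuous_tc φ₀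
    have hc : Continuous fun z => yc φ₀ z - 2 * tc φ₀ z := hy.sub (continuous_const.mul ht)
    have hcl : IsClosed {z : ℂ | -v₀ ≤ yc φ₀ z ∧ yc φ₀ z ≤ u₀ ∧ -v₀' ≤ yc φ₀ z - 2 * tc φ₀ z ∧
        yc φ₀ z - 2 * tc φ₀ z ≤ u₀'} := by
      refine (isClosed_le continuous_const hy).inter ((isClosed_le hy continuous_const).inter
        ((isClosed_le continuous_const hc).inter (isClosed_le hc continuous_const)))
    refine hcl.mem_of_tendsto hlim ?_
    have hev : ∀ᶠ s : ℝ in 𝓝[<] 1, 0 < s ∧ s < 1 :=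
      Ioo_mem_nhdsLT (by norm_num : (0 : ℝ) < 1)
    filter_upwards [hev] with s hs
    exact key s hs.1.le hs.2
  have hinn' : ∀ z, -v₀ < yc φ₀ z → yc φ₀ z < u₀ → -v₀' < yc φ₀ z - 2 * tc φ₀ z →
      yc φ₀ z - 2 * tc φ₀ z < u₀' → z ∈ D := by
    intro z h1 h2 h3 h4
    obtain ⟨B, hB⟩ := hinn z
    apply mem_lim hW hD h
    have hy := hyc z
    have hyt := hy.sub (hk.mul (htc z))
    have hBη : Tendsto (fun n => B * η n) atTop (𝓝 0) := by simpa using hη.const_mul B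
    have c1 := (hv.neg.add hBη).eventually_lt hy (by simpa using h1)
    have c2 := hy.eventually_lt (hu.sub hBη) (by simpa using h2)
    have c3 := (hv'.neg.add hBη).eventually_lt hyt (by simpa using h3)
    have c4 := hyt.eventually_lt (hu'.sub hBη) (by simpa using h4)
    filter_upwards [hB, c1, c2, c3, c4] with n hn d1 d2 d3 d4
    exact hn d1.le d2.le d3.le d4.le
  obtain ⟨ρ, hρ, hb⟩ := Metric.isOpen_iff.1 isOpen_interior 0 hD.zero
  have hball : ∀ t y : ℝ, |t| + |y| < ρ → P φ₀ t y ∈ D := by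
    intro t y hty
    apply interior_subset
    apply hb
    rw [mem_ball_zero_iff]
    refine (norm_le_add φ₀ _).trans_lt ?_
    simpa using hty
  have g1 := hout' _ (hball 0 (ρ / 2) (by rw [abs_zero, abs_of_pos (by linarith)]; linarith))
  have g2 := hout' _ (hball 0 (-(ρ / 2)) (by
    rw [abs_zero, abs_neg, abs_of_pos (by linarith)]; linarith))
  simp only [tc_P, yc_P] at g1 g2
  refine ⟨hD, by linarith [g1.2.1], by linarith [g2.1], by linarith [g1.2.2.2],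
    by linarith [g2.2.2.1], ?_, hout', hinn'⟩
  exact tendsto_nhds_unique (hu.add hv) ((hu'.add hv').congr fun n => (heq n).symm)

end Tlb

end Pool.XR2
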